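import Pool.Agent.P.MP_3dfad8_al.F5.Tab

/-! The relations that follow from the definitions. -/

namespace Pool.Agent.P.MP_3dfad8_al.F5

theorem q1 : rng (fun j => rng (ph tab Wt dk dl j) 2 (Nat.sub j 2)) 3 14 = true := by
  decide +kernel
theorem q2 : rng (fun j => rng (ph tab Wt dk dl j) 2 (Nat.sub j 2)) 17 10 = true := by
  decide +kernel
theorem q3 : rng (fun j => rng (ph tab Wt dk dl j) 2 (Nat.sub j 2)) 27 8 = true := by
  decide +kernel

end Pool.Agent.P.MP_3dfad8_al.F5
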