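import Pool.Agent.P.MP_3dfad8_al.F5.Tab

/-! Consequences of the laws. -/

namespace Pool.Agent.P.MP_3dfad8_al.F5

theorem l0 : same (cc tab Wt [1, Wt]) (cc tab Wt [Wt, 1, v0]) = true := by decide +kernel
theorem l1 : same (cc tab Wt [256, 16, 1]) (cc tab Wt [256, 1, 272, v1]) = true := by
  decide +kernel
theorem l2 : law (cc tab Wt) 16 4951760157141521099596496896 v2 = true := by decide +kernel
theorem l3 : law (cc tab Wt) 16 75557863725914323419136 v3 = true := by decide +kernel
theorem l4 : law (cc tab Wt) 16 68719476736 v4 = true := by decide +kernel
theorem l5 : law (cc tab Wt) 16 281474976710656 v5 = true := by decide +kernel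
theorem l6 : law (cc tab Wt) 16 17592186044416 v6 = true := by decide +kernel
theorem l7 : law (cc tab Wt) 256 1048576 v7 = true := by decide +kernel
theorem l8 : law (cc tab Wt) 17 5192296858534827628530496329220096 v8 = true := by decide +kernel
theorem l9 : law (cc tab Wt) 17 295147905179352825856 v9 = true := by decide +kernel
theorem l10 : law (cc tab Wt) 17 72057594037927936 v10 = true := by decide +kernel
theorem l11 : law (cc tab Wt) 17 4722366482869645213696 v11 = true := by decide +kernel
theorem l12 : law (cc tab Wt) 17 17592186044416 v12 = true := by decide +kernel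
theorem l13 : law (cc tab Wt) 18 72057594037927936 v13 = true := by decide +kernel
theorem l14 : law (cc tab Wt) 18 4722366482869645213696 v14 = true := by decide +kernel
theorem l15 : law (cc tab Wt) 33 72057594037927936 v15 = true := by decide +kernel
theorem l16 : law (cc tab Wt) 33 4722366482869645213696 v16 = true := by decide +kernel
theorem l17 : law (cc tab Wt) 33 17592186044416 v17 = true := by decide +kernel
theorem l18 : law (cc tab Wt) 18 17592186044416 v18 = true := by decide +kernel
theorem l19 : law (cc tab Wt) 17 268435456 v19 = true := by decide +kernel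
theorem l20 : law (cc tab Wt) 18 268435456 v20 = true := by decide +kernel
theorem l21 : law (cc tab Wt) 33 268435456 v21 = true := by decide +kernel
theorem l22 : law (cc tab Wt) 16 1048576 v22 = true := by decide +kernel
theorem l23 : law (cc tab Wt) 16 131328 v23 = true := by decide +kernel
theorem l24 : law (cc tab Wt) 32 65792 v24 = true := by decide +kernel
theorem l25 : law (cc tab Wt) 16 68719480832 v25 = true := by decide +kernel
theorem l26 : law (cc tab Wt) 17 281474976776192 v26 = true := by decide +kernel
theorem l27 : law (cc tab Wt) 18 16842752 v27 = true := by decide +kernel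
theorem l28 : law (cc tab Wt) 19 16842752 v28 = true := by decide +kernel
theorem l29 : law (cc tab Wt) 17 131072 v29 = true := by decide +kernel
theorem l30 : law (cc tab Wt) 0 17 v30 = true := by decide +kernel
theorem lm : rng (fun r => Nat.beq (cc tab Wt (ex VV (ent LM r)))
    (Nat.succ (Nat.pow 16 (Nat.add 35 r)))) 0 35 = true := by decide +kernel
theorem lz : same (cc tab Wt [Wt, 16]) (cc tab Wt [16, Wt, vz]) = true := by decide +kernel

end Pool.Agent.P.MP_3dfad8_al.F5
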