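import Pool.Agent.P.MP_3dfad8_al.F5.Tab

/-! Consequences of the laws. -/

namespace Pool.Agent.P.MP_3dfad8_al.F5

theorem l34 : law (cc tab Wt) 0 65 v34 = true := by decide +kernel

end Pool.Agent.P.MP_3dfad8_al.F5
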