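/-! A collector for normal words of a polycyclic presentation.  A word is a natural number, its
digit number `i` in base 16 is the exponent of generator `i`.  The result `r + 1` stands for the
word `r`, the result `0` for failure. -/

namespace Pool.Agent.P.MP_3dfad8_al.F5

noncomputable section

def sel (b : Bool) (x y : Nat) : Nat := Bool.rec (motive := fun _ => Nat) y x b
def bsel (b x : Bool) : Bool := Bool.rec (motive := fun _ => Bool) false x b
def lsel (b : Bool) (x y : List Nat) : List Nat := Bool.rec (motive := fun _ => List Nat) y x b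

def frc (g : Nat) (f : Nat → Nat) : Nat :=
  Nat.rec (motive := fun _ => Nat) (f 0) (fun n _ => f (Nat.succ n)) g

def K7 : Nat := nat_lit 0x7777777777777777777777777777777777777777777777777777777777777777777777
def T3 : Nat := nat_lit 0x3333333333333333333333333333333333333333333333333333333333333333333333
def O1 : Nat := nat_lit 0x1111111111111111111111111111111111111111111111111111111111111111111110
def MK : Nat := nat_lit 0xffffffffffffffffffffffffffffffffffffffffffffffffffffffffffffffffffffff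

def ent (row k : Nat) : Nat := Nat.land (Nat.shiftRight row (Nat.mul 280 k)) MK

def rep (e x : Nat) (l : List Nat) : List Nat :=
  Nat.rec (motive := fun _ => List Nat) l (fun _ ih => x :: ih) e

/-- the conjugate of the word with digits `s` from position `k` on -/
def cj (row : Nat) (rest : List Nat) (fuel : Nat) : Nat → Nat → Nat → List Nat :=
  Nat.rec (motive := fun _ => Nat → Nat → Nat → List Nat)
    (fun k s _ => Nat.mul (Nat.pow 16 k) s :: rest)
    (fun _ ih k s m => lsel (Nat.beq (Nat.land s m) 0) (Nat.mul (Nat.pow 16 k) s :: rest)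
      (rep (Nat.mod s 16) (ent row k) (ih (Nat.succ k) (Nat.div s 16) (Nat.div m 16)))) fuel

def low (w : Nat) : Nat := Nat.div (Nat.log2 (Nat.xor w (Nat.pred w))) 4

def sZ3 (ih : Nat → List Nat → Nat) (u w : Nat) (rest : List Nat) (s f z : Nat) : Nat :=
  sel (Nat.beq (Nat.lor (Nat.lor (Nat.lor u w) z) K7) K7)
    (sel (Nat.beq (Nat.add z f) s) (ih z rest) 0) 0

def sZ2 (ih : Nat → List Nat → Nat) (u w : Nat) (rest : List Nat) (s f : Nat) : Nat :=
  sZ3 ih u w rest s f (Nat.sub s f)

def sZ (ih : Nat → List Nat → Nat) (u w : Nat) (rest : List Nat) (s : Nat) : Nat :=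
  sZ2 ih u w rest s (Nat.mul 5 (Nat.land (Nat.shiftRight (Nat.add s T3) 3) O1))

def sC (ih : Nat → List Nat → Nat) (u w : Nat) (rest : List Nat) (p d e : Nat) : Nat :=
  ih (Nat.add (Nat.sub u (Nat.mul p d)) (Nat.mul p (Nat.mod (Nat.add d e) 5)))
    (Nat.sub w (Nat.mul p e) :: rest)

def sU (W : Nat) (ih : Nat → List Nat → Nat) (u g p d : Nat) (L : List Nat) : Nat :=
  sel (Nat.ble 4 d)
    (ih (Nat.add (Nat.mod u p) (Nat.mul p (Nat.sub d 4))) (sel (Nat.beq g 0) W 0 :: L))
    (ih (Nat.add (Nat.mod u p) (Nat.mul p (Nat.succ d))) L)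

def sN2 (W : Nat) (ih : Nat → List Nat → Nat) (u w : Nat) (rest : List Nat)
    (g p d s row m : Nat) : Nat :=
  sel (bsel (Nat.beq (Nat.land s m) 0) (Nat.ble 1 g))
    (sC ih u w rest p d (Nat.mod (Nat.div w p) 16))
    (sU W ih u g p d (cj row (Nat.sub w p :: rest) (Nat.sub 34 g) (Nat.succ g) s m))

def sN (W : Nat) (fe : Nat → Nat) (ih : Nat → List Nat → Nat) (u w : Nat) (rest : List Nat)
    (g p d s row : Nat) : Nat :=
  sel (Nat.beq (Nat.mod s (Nat.pow 16 (fe g))) 0) (sN2 W ih u w rest g p d s row (ent row 0)) 0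

def s3 (tab : Nat → Nat) (W Z : Nat) (fe : Nat → Nat) (ih : Nat → List Nat → Nat) (u w : Nat)
    (rest : List Nat) (g p ug : Nat) : Nat :=
  sel (Nat.beq ug 0) (ih (Nat.add u w) rest)
    (sel (Nat.ble Z g) (sZ ih u w rest (Nat.add u w))
      (sN W fe ih u w rest g p (Nat.mod ug 16) (Nat.div ug 16) (tab g)))

def s2 (tab : Nat → Nat) (W Z : Nat) (fe : Nat → Nat) (ih : Nat → List Nat → Nat) (u w : Nat)
    (rest : List Nat) (g p : Nat) : Nat :=
  sel (bsel (Nat.beq (Nat.mod w p) 0) (Nat.ble 1 (Nat.mod (Nat.div w p) 16)))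
    (s3 tab W Z fe ih u w rest g p (Nat.div u p)) 0

def s1 (tab : Nat → Nat) (W Z : Nat) (fe : Nat → Nat) (ih : Nat → List Nat → Nat) (u w : Nat)
    (rest : List Nat) (g : Nat) : Nat :=
  s2 tab W Z fe ih u w rest g (Nat.pow 16 g)

def st (tab : Nat → Nat) (W Z : Nat) (fe : Nat → Nat) (ih : Nat → List Nat → Nat) (u w : Nat)
    (rest : List Nat) : Nat :=
  sel (Nat.beq w 0) (ih u rest) (frc (low w) (s1 tab W Z fe ih u w rest))

def col (tab : Nat → Nat) (W Z : Nat) (fe : Nat → Nat) (fuel : Nat) : Nat → List Nat → Nat :=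
  Nat.rec (motive := fun _ => Nat → List Nat → Nat) (fun _ _ => 0)
    (fun _ ih u l => List.rec (motive := fun _ => Nat) (Nat.succ u)
      (fun w rest _ => st tab W Z fe ih u w rest) l) fuel

/-- two successful runs with the same result -/
def same (r s : Nat) : Bool := bsel (Nat.ble 1 r) (Nat.beq r s)

/-! the relation for the pair `(j, i)` from the earlier ones -/

def p4 (c : List Nat → Nat) (D J I K L q s r2 r3 s' : Nat) : Bool :=
  bsel (same r2 (c [q, J, s])) (bsel (same r3 (c [I, s'])) (same (c [J, K, L]) (c [q, I, D, s'])))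

def p3 (c : List Nat → Nat) (D J I K L q s r2 r3 : Nat) : Bool :=
  p4 c D J I K L q s r2 r3 (Nat.sub (Nat.pred r3) I)

def p2 (c : List Nat → Nat) (D J I K L q s r2 : Nat) : Bool := p3 c D J I K L q s r2 (c [s, I])

def p1 (c : List Nat → Nat) (D J I K L r2 q : Nat) : Bool :=
  p2 c D J I K L q (Nat.sub (Nat.sub (Nat.pred r2) q) J) r2

def p0 (c : List Nat → Nat) (D J I K L r2 : Nat) : Bool :=
  p1 c D J I K L r2 (Nat.mod (Nat.pred r2) J)

def pp (c : List Nat → Nat) (D J I K L : Nat) : Bool := p0 c D J I K L (c [J, L, K])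

def fe1 (j i g : Nat) : Nat :=
  sel (Nat.ble g 1) 0 (Nat.sub (sel (Nat.ble i g) (Nat.succ j) j) (Nat.succ g))

def ph (tab : Nat → Nat) (W : Nat) (dk dl : Nat → Nat) (j i : Nat) : Bool :=
  pp (col tab W (sel (Nat.ble j 15) 15 j) (fe1 j i) 100000 0) (ent (tab i) j) (Nat.pow 16 j)
    (Nat.pow 16 i) (Nat.pow 16 (dk i)) (Nat.pow 16 (dl i))

/-- `f` holds on `[lo, lo + n)` -/
def rng (f : Nat → Bool) (lo n : Nat) : Bool :=
  Nat.rec (motive := fun _ => Bool) true (fun i ih => bsel (f (Nat.add lo i)) ih) n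

/-! the laws -/

def cc (tab : Nat → Nat) (W : Nat) : List Nat → Nat := col tab W 15 (fun _ => 0) 1000000 0

def al (w : Nat) : Bool :=
  Bool.rec (motive := fun _ => Bool)
    (bsel (Nat.ble 16 (Nat.mod w 256)) (Nat.ble (Nat.mod w 256) 79)) true
    (Nat.beq (Nat.mod w 256) 0)

def cg2 (c : List Nat → Nat) (g r b : Nat) (k : Nat → Bool) : Bool := bsel (same r (c [g, b])) (k b)
def cg1 (c : List Nat → Nat) (g r : Nat) (k : Nat → Bool) : Bool :=
  cg2 c g r (Nat.sub (Nat.pred r) g) k
def cg (c : List Nat → Nat) (g a : Nat) (k : Nat → Bool) : Bool := cg1 c g (c [a, g]) k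

def law (c : List Nat → Nat) (g a v : Nat) : Bool :=
  bsel (al g) (bsel (al (Nat.add g a)) (bsel (Nat.beq (c [g, a]) (Nat.succ (Nat.add g a)))
    (cg c g a fun b1 => cg c g b1 fun b2 => cg c g b2 fun b3 => cg c g b3 fun b4 =>
      Nat.beq (c [b4, b3, b2, b1, a]) (Nat.succ v))))

/-- the list `V` with multiplicities given by the digits of `m` -/
def ex (V : List Nat) : Nat → List Nat :=
  List.rec (motive := fun _ => Nat → List Nat) (fun _ => [])
    (fun v _ ih m => rep (Nat.mod m 16) v (ih (Nat.div m 16))) V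

end

end Pool.Agent.P.MP_3dfad8_al.F5
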