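import Pool.Agent.P.MP_3dfad8_al.F5.Sound
import Pool.Agent.P.MP_3dfad8_al.F5.C1
import Pool.Agent.P.MP_3dfad8_al.F5.C2
import Pool.Agent.P.MP_3dfad8_al.F5.C3
import Pool.Agent.P.MP_3dfad8_al.F5.C4
import Pool.Agent.P.MP_3dfad8_al.F5.C5

/-! If the tails `a k`, `35 ≤ k`, are central, then they are trivial. -/

namespace Pool.Agent.P.MP_3dfad8_al.F5

variable {Γ : Type*} [Group Γ]

theorem rng_ok {f : ℕ → Bool} {lo n : ℕ} (h : rng f lo n = true) :
    ∀ i, lo ≤ i → i < lo + n → f i = true := by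
  induction n with
  | zero => intro i h1 h2; omega
  | succ n ih =>
    intro i h1 h2
    obtain ⟨h3, h4⟩ := bsel_eq (b := f (lo + n)) (x := rng f lo n) h
    by_cases h5 : i = lo + n
    · exact h5 ▸ h3
    · exact ih h4 i h1 (by omega)

/-- soundness of a collector started at the empty word -/
def Sc (a : ℕ → Γ) (c : List ℕ → ℕ) : Prop := ∀ l r, c l = r + 1 → ev a 0 r = pr a l

theorem Good.sc {a : ℕ → Γ} {tab : ℕ → ℕ} {W Z : ℕ} {fe : ℕ → ℕ} (H : Good a tab W Z fe)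
    (fuel : ℕ) : Sc a (col tab W Z fe fuel 0) := fun l r h => by
  rw [col_ok H fuel 0 l r h, ev_zero, one_mul]

theorem Sc.same {a : ℕ → Γ} {c : List ℕ → ℕ} (H : Sc a c) {l m : List ℕ}
    (h : same (c l) (c m) = true) : pr a l = pr a m := by
  obtain ⟨h1, h2⟩ := bsel_eq h
  have h3 : 1 ≤ c l := Nat.le_of_ble_eq_true h1
  have h4 : c l = c m := Nat.eq_of_beq_eq_true h2
  rw [← H l (c l - 1) (by omega), ← H m (c l - 1) (by omega)]

theorem Sc.pp {a : ℕ → Γ} {c : List ℕ → ℕ} (H : Sc a c) {D J I K L : ℕ}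
    (h : pp c D J I K L = true)
    (hd : ev a 0 K * ev a 0 L = ev a 0 L * ev a 0 K * ev a 0 I) :
    ev a 0 J * ev a 0 I = ev a 0 I * ev a 0 D := by
  unfold F5.pp p0 p1 p2 p3 p4 at h
  obtain ⟨h1, h⟩ := bsel_eq h
  obtain ⟨h2, h3⟩ := bsel_eq h
  have e1 := H.same h1
  have e2 := H.same h2
  have e3 := H.same h3
  simp only [pr_cons, pr_nil, mul_one] at e1 e2 e3
  generalize ev a 0 (Nat.mod _ _) = Q at e1 e3
  generalize ev a 0 (Nat.sub (Nat.pred (c [_, I])) I) = S' at e2 e3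
  generalize ev a 0 (Nat.sub _ J) = S at e1 e2
  have e4 : Q * (ev a 0 J * ev a 0 I * S') = Q * (ev a 0 I * ev a 0 D * S') := by
    rw [mul_assoc (ev a 0 I), ← e3, hd, ← mul_assoc (ev a 0 J) (_ * _), e1, mul_assoc (ev a 0 J),
      ← e2]
    simp only [mul_assoc]
  exact mul_right_cancel (mul_left_cancel e4)

theorem Sc.cg {a : ℕ → Γ} {c : List ℕ → ℕ} (H : Sc a c) {g x : ℕ} {k : ℕ → Bool}
    (h : cg c g x k = true) : ∃ b, ev a 0 x * ev a 0 g = ev a 0 g * ev a 0 b ∧ k b = true := by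
  obtain ⟨h1, h2⟩ := bsel_eq h
  exact ⟨_, by simpa using H.same h1, h2⟩

theorem Sc.law {a : ℕ → Γ} {c : List ℕ → ℕ} (H : Sc a c)
    (hL : ∀ w, al w = true → ev a 0 w ^ 5 = 1) {g x v : ℕ} (h : law c g x v = true) :
    ev a 0 v = 1 := by
  obtain ⟨h1, h⟩ := bsel_eq h
  obtain ⟨h2, h⟩ := bsel_eq h
  obtain ⟨h3, h⟩ := bsel_eq h
  obtain ⟨b1, e1, h⟩ := H.cg h
  obtain ⟨b2, e2, h⟩ := H.cg h
  obtain ⟨b3, e3, h⟩ := H.cg h
  obtain ⟨b4, e4, h⟩ := H.cg h
  have e5 := H _ _ (Nat.eq_of_beq_eq_true h)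
  have e6 := H _ _ (Nat.eq_of_beq_eq_true h3)
  have e7 := hL _ h1
  have e8 := hL _ h2
  simp only [pr_cons, pr_nil, mul_one] at e5 e6
  rw [e6] at e8
  rw [e5]
  generalize ev a 0 g = G, ev a 0 x = X, ev a 0 b1 = B1, ev a 0 b2 = B2, ev a 0 b3 = B3,
    ev a 0 b4 = B4 at *
  have f1 : B1 = G⁻¹ * X * G := by rw [mul_assoc, e1]; group
  have f2 : B2 = G⁻¹ * B1 * G := by rw [mul_assoc, e2]; group
  have f3 : B3 = G⁻¹ * B2 * G := by rw [mul_assoc, e3]; group
  have f4 : B4 = G⁻¹ * B3 * G := by rw [mul_assoc, e4]; group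
  have f5 : B4 * (B3 * (B2 * (B1 * X))) = (G ^ 5)⁻¹ * (G * X) ^ 5 := by
    rw [f4, f3, f2, f1]
    simp only [pow_succ, pow_zero, one_mul, mul_inv_rev, mul_assoc, mul_inv_cancel_left,
      inv_mul_cancel_left]
  rw [f5, e7, e8, inv_one, one_mul]

theorem pr_ex (a : ℕ → Γ) (V : List ℕ) (h : ∀ v ∈ V, ev a 0 v = 1) : ∀ m, pr a (ex V m) = 1 := by
  induction V with
  | nil => intro m; rfl
  | cons v V ih =>
    intro m
    change pr a (rep (m % 16) v (ex V (m / 16))) = 1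
    rw [pr_rep, h v (by simp), ih fun w hw => h w (by simp [hw]), one_pow, one_mul]

/-- the hypotheses that pass to quotients -/
structure Pk (a : ℕ → Γ) : Prop where
  h0 : a 0 ^ 5 = ev a 0 Wt
  h70 : ∀ k, 70 ≤ k → a k = 1
  hd : ∀ i, 2 ≤ i → i < 35 → a (dk i) * a (dl i) = a (dl i) * a (dk i) * a i
  hp : ∀ r < 34, a (pj r) * a (pi r) = a (pi r) * ev a 0 (ent (tab (pi r)) (pj r))
  hL : ∀ w, al w = true → ev a 0 w ^ 5 = 1

theorem Pk.map {Δ : Type*} [Group Δ] (f : Γ →* Δ) {a : ℕ → Γ} (h : Pk a) :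
    Pk fun i => f (a i) where
  h0 := by rw [ev_map, ← h.h0, map_pow]
  h70 k hk := by rw [h.h70 k hk, map_one]
  hd i h1 h2 := by rw [← map_mul, h.hd i h1 h2, map_mul, map_mul]
  hp r hr := by rw [ev_map, ← map_mul, h.hp r hr, map_mul]
  hL w hw := by rw [ev_map, ← map_pow, h.hL w hw, map_one]

theorem tb_mask : ∀ g < 35, ∀ i < 35, g + 1 + i < 35 →
    ent (tab g) 0 / 16 ^ i % 16 = 15 ∨ ent (tab g) (g + 1 + i) = 16 ^ (g + 1 + i) := by
  decide +kernel

theorem tb_zone : ∀ k < 35, ∀ i < k, 15 ≤ i → ent (tab i) k = 16 ^ k := by decide +kernel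

set_option synthInstance.maxSize 2048 in
theorem tb_low : ∀ k < 35, ∀ g < 2, g < k → (∃ r < 34, pj r = k ∧ pi r = g) ∨
    ∃ i < 35, 2 ≤ i ∧ dk i = k ∧ dl i = g ∧ ent (tab g) k % 16 ^ i = 16 ^ k ∧
      ent (tab g) k / 16 ^ i = 1 := by
  decide +kernel

theorem Pk.h5 {a : ℕ → Γ} (h : Pk a) (g : ℕ) (hg : 1 ≤ g) : a g ^ 5 = 1 := by
  rw [← ev_pow a g]
  refine h.hL _ ?_
  obtain ⟨g, rfl⟩ : ∃ k, g = k + 1 := ⟨g - 1, by omega⟩
  cases g with
  | zero => rfl
  | succ g =>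
    have : Nat.mod (16 ^ (g + 1 + 1)) 256 = 0 := by
      change 16 ^ (g + 1 + 1) % 256 = 0
      rw [pow_succ, pow_succ, mul_assoc]
      exact Nat.mul_mod_left _ _
    rw [al, this]
    rfl

theorem Pk.low {a : ℕ → Γ} (h : Pk a) (g k : ℕ) (hg : g < 2) (h1 : g < k) (h2 : k < 35) :
    a k * a g = a g * ev a 0 (ent (tab g) k) := by
  rcases tb_low k h2 g hg h1 with ⟨r, hr, rfl, rfl⟩ | ⟨i, hi, h3, rfl, rfl, h4, h5⟩
  · exact h.hp r hr
  · rw [h.hd i h3 hi, ev_cut a i, h4, h5, ev_pow, ev_dig a i 1 (by norm_num), pow_one, mul_assoc]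

theorem ph_all (j i : ℕ) (h1 : 2 ≤ i) (h2 : i < j) (h3 : j < 35) : ph tab Wt dk dl j i = true := by
  have : rng (ph tab Wt dk dl j) 2 (Nat.sub j 2) = true := by
    by_cases h4 : j < 17
    · exact rng_ok q1 j (by omega) h4
    by_cases h5 : j < 27
    · exact rng_ok q2 j (by omega) h5
    · exact rng_ok q3 j (by omega) h3
  exact rng_ok this i h1 (by change i < 2 + (j - 2); omega)

theorem good_of {a : ℕ → Γ} (h : Pk a) (hc : ∀ k, 35 ≤ k → ∀ y, Commute (a k) y) (j Z : ℕ)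
    (fe : ℕ → ℕ) (h15 : 15 ≤ Z) (hj : j ≤ Z) (h35 : Z ≤ 35)
    (ih : ∀ k g, j < k → g < k → k < 35 → a k * a g = a g * ev a 0 (ent (tab g) k))
    (hR : ∀ g k, g + 1 + fe g ≤ k → k < 35 → a k * a g = a g * ev a 0 (ent (tab g) k)) :
    Good a tab Wt Z fe := by
  have key : ∀ i k, Z ≤ i → i < k → Commute (a k) (a i) := fun i k h1 h2 => by
    by_cases h3 : k < 35
    · have := ih k i (by omega) h2 h3
      rwa [tb_zone k h3 i h2 (by omega), ev_pow] at this
    · exact hc k (by omega) _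
  refine ⟨fun g k _ => hR g k, fun i k h1 h2 => ?_, hc, h.h5, h.h0, tb_mask, h35⟩
  rcases lt_trichotomy i k with h3 | rfl | h3
  · exact (key i k h1 h3).symm
  · exact Commute.refl _
  · exact key k i h2 h3

theorem Pk.rel {a : ℕ → Γ} (h : Pk a) (hc : ∀ k, 35 ≤ k → ∀ y, Commute (a k) y) (n : ℕ) :
    ∀ j i, 35 ≤ j + n → i < j → j < 35 → a j * a i = a i * ev a 0 (ent (tab i) j) := by
  induction n with
  | zero => intro j i h1 _ h2; omega
  | succ n ih =>
    intro j i h1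
    induction i using Nat.strong_induction_on with
    | _ i ih2 =>
      intro h2 h3
      by_cases h4 : i < 2
      · exact h.low i j h4 h2 h3
      have hZ : 15 ≤ sel (Nat.ble j 15) 15 j ∧ j ≤ sel (Nat.ble j 15) 15 j ∧
          sel (Nat.ble j 15) 15 j ≤ 35 := by
        rcases sel_eq (rfl : sel (Nat.ble j 15) 15 j = _) with ⟨h5, h6⟩ | ⟨h5, h6⟩
        · have := Nat.le_of_ble_eq_true h5
          omega
        · have : ¬j ≤ 15 := fun h7 => by rw [Nat.ble_eq_true_of_le h7] at h5; cases h5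
          omega
      have H := good_of h hc j _ (fe1 j i) hZ.1 hZ.2.1 hZ.2.2
        (fun k g h5 h6 h7 => ih k g (by omega) h6 h7) fun g k h5 h6 => by
          by_cases h7 : g < 2
          · exact h.low g k h7 (by omega) h6
          by_cases h8 : j < k
          · exact ih k g (by omega) (by omega) h6
          have h9 : Nat.ble g 1 = false := by
            cases h9 : Nat.ble g 1
            · rfl
            · exact absurd (Nat.le_of_ble_eq_true h9) (by omega)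
          rw [fe1, h9] at h5
          change g + 1 + (sel (Nat.ble i g) (j + 1) j - (g + 1)) ≤ k at h5
          rcases sel_eq (rfl : sel (Nat.ble i g) (j + 1) j = _) with ⟨_, h10⟩ | ⟨h11, h10⟩
          · omega
          · have h12 : ¬i ≤ g := fun h7 => by rw [Nat.ble_eq_true_of_le h7] at h11; cases h11
            obtain rfl : k = j := by omega
            exact ih2 g (by omega) (by omega) h6
      have h5 := (H.sc 100000).pp (ph_all j i (by omega) h2 h3)
      change ev a 0 (16 ^ _) * ev a 0 (16 ^ _) = ev a 0 (16 ^ _) * ev a 0 (16 ^ _) *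
        ev a 0 (16 ^ _) → ev a 0 (16 ^ _) * ev a 0 (16 ^ _) = ev a 0 (16 ^ _) * _ at h5
      simp only [ev_pow] at h5
      exact h5 (h.hd i (by omega) (by omega))

theorem cover {a : ℕ → Γ} (h : Pk a) (hc : ∀ k, 35 ≤ k → ∀ y, Commute (a k) y) :
    (∀ k, 35 ≤ k → a k = 1) ∧ Commute (a 0 ^ 5) (a 1) := by
  have H : Sc a (cc tab Wt) :=
    (good_of h hc 0 15 (fun _ => 0) le_rfl (by omega) (by omega)
      (fun k g _ => h.rel hc 35 k g (by omega)) fun g k h1 =>
        h.rel hc 35 k g (by omega) (by omega)).sc 1000000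
  have a0 : ev a 0 1 = a 0 := ev_pow a 0
  have a1 : ev a 0 16 = a 1 := ev_pow a 1
  have a2 : ev a 0 256 = a 2 := ev_pow a 2
  have e0 : ev a 0 v0 = 1 := by
    have := H.same l0
    simp only [pr_cons, pr_nil, mul_one, a0, ← h.h0] at this
    rw [← pow_succ', ← mul_assoc, ← pow_succ] at this
    exact (left_eq_mul.1 this)
  have e1 : ev a 0 v1 = 1 := by
    have := H.same l1
    have h1 : ev a 0 272 = a 1 * a 2 := by
      rw [ev_cut a 2]
      exact congrArg₂ _ a1 ((ev_dig a 2 1 (by norm_num)).trans (pow_one _))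
    have h2 : a 1 * a 0 = a 0 * a 1 * a 2 := h.hd 2 le_rfl (by omega)
    simp only [pr_cons, pr_nil, mul_one, a0, a1, a2, h1, h2] at this
    have h3 := mul_left_cancel this
    rw [← mul_assoc, ← mul_assoc] at h3
    exact (left_eq_mul.1 h3)
  have hV : ∀ v ∈ VV, ev a 0 v = 1 := by
    simp only [VV, List.forall_mem_cons]
    have L := fun {g x v} => H.law h.hL (g := g) (x := x) (v := v)
    exact ⟨e0, e1, L l2, L l3, L l4, L l5, L l6, L l7, L l8, L l9, L l10, L l11, L l12, L l13,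
      L l14, L l15, L l16, L l17, L l18, L l19, L l20, L l21, L l22, L l23, L l24, L l25, L l26,
      L l27, L l28, L l29, L l30, L l31, L l32, L l33, L l34, by simp⟩
  have ht : ∀ k, 35 ≤ k → a k = 1 := fun k hk => by
    by_cases h1 : k < 70
    · have h2 := H _ _ (Nat.eq_of_beq_eq_true (rng_ok lm (k - 35) (by omega) (by omega)))
      rw [pr_ex a VV hV] at h2
      change ev a 0 (16 ^ (35 + (k - 35))) = 1 at h2
      rwa [ev_pow, show 35 + (k - 35) = k by omega] at h2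
    · exact h.h70 k (by omega)
  refine ⟨ht, ?_⟩
  have h1 := H.same lz
  have h2 : ev a 0 vz = 1 := by
    rw [ev_cut a 35, show vz % 16 ^ 35 = 0 by decide +kernel, ev_zero, one_mul]
    exact ev_mem a ⊥ _ _ fun i _ => ht _ (by omega)
  simp only [pr_cons, pr_nil, mul_one, a1, h2, ← h.h0] at h1
  exact h1

end Pool.Agent.P.MP_3dfad8_al.F5
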