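import Mathlib
import Pool.Agent.P.MP_3dfad8_al.F5.Col

/-! The value of a word in a group. -/

namespace Pool.Agent.P.MP_3dfad8_al.F5

variable {Γ : Type*} [Group Γ]

/-- the product of `a (k + i) ^ (digit i of u)` -/
def ev (a : ℕ → Γ) (k u : ℕ) : Γ :=
  if _h : u = 0 then 1 else a k ^ (u % 16) * ev a (k + 1) (u / 16)
termination_by u
decreasing_by omega

theorem ev_zero (a : ℕ → Γ) (k : ℕ) : ev a k 0 = 1 := by
  rw [ev]; simp

theorem ev_eq (a : ℕ → Γ) (k u : ℕ) : ev a k u = a k ^ (u % 16) * ev a (k + 1) (u / 16) := by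
  by_cases h : u = 0
  · subst h; simp [ev_zero]
  · rw [ev]; simp [h]

theorem ev_cons (a : ℕ → Γ) (k d s : ℕ) (hd : d < 16) :
    ev a k (d + 16 * s) = a k ^ d * ev a (k + 1) s := by
  rw [ev_eq, show (d + 16 * s) % 16 = d by omega, show (d + 16 * s) / 16 = s by omega]

theorem ev_dig (a : ℕ → Γ) (k d : ℕ) (hd : d < 16) : ev a k d = a k ^ d := by
  have := ev_cons a k d 0 hd
  rwa [ev_zero, mul_one, mul_zero, add_zero] at this

theorem ev_split (a : ℕ → Γ) (m : ℕ) : ∀ k x y : ℕ, x < 16 ^ m →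
    ev a k (x + 16 ^ m * y) = ev a k x * ev a (k + m) y := by
  induction m with
  | zero => intro k x y h; obtain rfl : x = 0 := by simpa using h
            simp [ev_zero]
  | succ m ih =>
    intro k x y h
    have h1 : x + 16 ^ (m + 1) * y = x % 16 + 16 * (x / 16 + 16 ^ m * y) := by
      rw [pow_succ, mul_comm (16 ^ m), mul_assoc]; omega
    have h2 : x / 16 < 16 ^ m := by rw [pow_succ] at h; omega
    rw [h1, ev_cons a k _ _ (Nat.mod_lt _ (by norm_num)), ih _ _ _ h2, ev_eq a k x, mul_assoc,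
      show k + 1 + m = k + (m + 1) by omega]

theorem ev_shift (a : ℕ → Γ) (m y : ℕ) : ev a 0 (16 ^ m * y) = ev a m y := by
  have := ev_split a m 0 0 y (by positivity)
  simpa [ev_zero] using this

theorem ev_pow (a : ℕ → Γ) (m : ℕ) : ev a 0 (16 ^ m) = a m := by
  have := ev_shift a m 1
  rwa [mul_one, ev_dig a m 1 (by norm_num), pow_one] at this

theorem ev_cut (a : ℕ → Γ) (m u : ℕ) : ev a 0 u = ev a 0 (u % 16 ^ m) * ev a m (u / 16 ^ m) := by
  have := ev_split a m 0 (u % 16 ^ m) (u / 16 ^ m) (Nat.mod_lt _ (by positivity))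
  rwa [Nat.mod_add_div, zero_add] at this

theorem dg_succ (u i : ℕ) : u / 16 / 16 ^ i = u / 16 ^ (i + 1) := by
  rw [Nat.div_div_eq_div_mul, pow_succ, mul_comm]

theorem ev_mem (a : ℕ → Γ) (S : Subgroup Γ) (u : ℕ) : ∀ k : ℕ,
    (∀ i, u / 16 ^ i % 16 ≠ 0 → a (k + i) ∈ S) → ev a k u ∈ S := by
  induction u using Nat.strong_induction_on with
  | _ u ih =>
    intro k h
    by_cases h0 : u = 0
    · rw [h0, ev_zero]; exact S.one_mem
    rw [ev_eq]
    refine S.mul_mem ?_ (ih _ (by omega) _ fun i hi => ?_)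
    · by_cases h1 : u % 16 = 0
      · rw [h1, pow_zero]; exact S.one_mem
      · exact S.pow_mem (h 0 (by simpa using h1)) _
    · rw [dg_succ] at hi
      have := h _ hi
      rwa [show k + (i + 1) = k + 1 + i by omega] at this

theorem ev_comm (a : ℕ → Γ) (y : Γ) (u k : ℕ)
    (h : ∀ i, u / 16 ^ i % 16 ≠ 0 → Commute (a (k + i)) y) : Commute (ev a k u) y := by
  have := ev_mem a (Subgroup.centralizer {y}) u k fun i hi =>
    Subgroup.mem_centralizer_singleton_iff.2 (h i hi)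
  exact Subgroup.mem_centralizer_singleton_iff.1 this

theorem ev_congr (a b : ℕ → Γ) (u : ℕ) : ∀ k : ℕ,
    (∀ i, u / 16 ^ i % 16 ≠ 0 → a (k + i) = b (k + i)) → ev a k u = ev b k u := by
  induction u using Nat.strong_induction_on with
  | _ u ih =>
    intro k h
    by_cases h0 : u = 0
    · rw [h0, ev_zero, ev_zero]
    rw [ev_eq a, ev_eq b, ih _ (by omega) _ fun i hi => ?_]
    · by_cases h1 : u % 16 = 0
      · rw [h1, pow_zero, pow_zero]
      · rw [show a k = b k from h 0 (by simpa using h1)]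
    · rw [dg_succ] at hi
      have := h _ hi
      rwa [show k + (i + 1) = k + 1 + i by omega] at this

theorem ev_map {Δ : Type*} [Group Δ] (f : Γ →* Δ) (a : ℕ → Γ) (u : ℕ) : ∀ k : ℕ,
    ev (fun i => f (a i)) k u = f (ev a k u) := by
  induction u using Nat.strong_induction_on with
  | _ u ih =>
    intro k
    by_cases h0 : u = 0
    · rw [h0, ev_zero, ev_zero, map_one]
    rw [ev_eq, ev_eq a, ih _ (by omega), map_mul, map_pow]

/-- all digits are at most `b` -/
def Dg (b x : ℕ) : Prop := ∀ i, x / 16 ^ i % 16 ≤ b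

theorem Dg.zero {b x : ℕ} (h : Dg b x) : x % 16 ≤ b := by simpa using h 0

theorem Dg.div {b x : ℕ} (h : Dg b x) (m : ℕ) : Dg b (x / 16 ^ m) := fun i => by
  rw [Nat.div_div_eq_div_mul, ← pow_add]; exact h _

theorem Dg.tl {b x : ℕ} (h : Dg b x) : Dg b (x / 16) := by simpa using h.div 1

theorem dg_or (x y i : ℕ) :
    (x ||| y) / 16 ^ i % 16 = (x / 16 ^ i % 16) ||| (y / 16 ^ i % 16) := by
  have h : (16 : ℕ) = 2 ^ 4 := rfl
  rw [h, ← pow_mul, Nat.or_div_two_pow, Nat.or_mod_two_pow]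

theorem dg_and (x y i : ℕ) :
    (x &&& y) / 16 ^ i % 16 = (x / 16 ^ i % 16) &&& (y / 16 ^ i % 16) := by
  have h : (16 : ℕ) = 2 ^ 4 := rfl
  rw [h, ← pow_mul, Nat.and_div_two_pow, Nat.and_mod_two_pow]

theorem Dg.or_left {b x y : ℕ} (h : Dg b (x ||| y)) : Dg b x := fun i =>
  le_trans Nat.left_le_or (dg_or x y i ▸ h i)

theorem Dg.or_right {b x y : ℕ} (h : Dg b (x ||| y)) : Dg b y := fun i =>
  le_trans Nat.right_le_or (dg_or x y i ▸ h i)

theorem Dg.and {b y : ℕ} (h : Dg b y) (x : ℕ) : Dg b (x &&& y) := fun i => by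
  rw [dg_and]; exact le_trans Nat.and_le_right (h i)

theorem dg_of {b x : ℕ} (h1 : ∀ i < 70, x / 16 ^ i % 16 ≤ b) (h2 : x < 16 ^ 70) : Dg b x := by
  intro i
  by_cases h : i < 70
  · exact h1 i h
  · rw [Nat.div_eq_of_lt (lt_of_lt_of_le h2 (Nat.pow_le_pow_right (by norm_num) (by omega)))]
    simp

theorem dg_K7 : Dg 7 K7 := dg_of (by decide +kernel) (by decide +kernel)
theorem dg_O1 : Dg 1 O1 := dg_of (by decide +kernel) (by decide +kernel)

theorem ev_five (a : ℕ → Γ) (h5 : ∀ g, 1 ≤ g → a g ^ 5 = 1) (n : ℕ) : ∀ k z F : ℕ, z + F < n →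
    Dg 7 z → Dg 1 F → (k = 0 → F % 16 = 0) → ev a k (z + 5 * F) = ev a k z := by
  induction n with
  | zero => intro k z F h; omega
  | succ n ih =>
    intro k z F h hz hF h0
    by_cases hF0 : F = 0
    · rw [hF0, mul_zero, add_zero]
    have h1 := hz.zero
    have h2 := hF.zero
    have h3 : z + 5 * F = (z % 16 + 5 * (F % 16)) + 16 * (z / 16 + 5 * (F / 16)) := by omega
    rw [h3, ev_cons a k _ _ (by omega), ih _ _ _ (by omega) hz.tl hF.tl (by omega), ev_eq a k z,
      pow_add, pow_mul]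
    by_cases hk : k = 0
    · rw [h0 hk, pow_zero, mul_one]
    · rw [h5 k (by omega), one_pow, mul_one]

theorem ev_add (a : ℕ → Γ) (n : ℕ) : ∀ k u w : ℕ, u + w < n →
    (∀ i j, k ≤ i → k ≤ j → Commute (a i) (a j)) → Dg 7 u → Dg 7 w →
    ev a k (u + w) = ev a k u * ev a k w := by
  induction n with
  | zero => intro k z F h; omega
  | succ n ih =>
    intro k u w h hc hu hw
    by_cases h0 : w = 0
    · rw [h0, ev_zero, mul_one, add_zero]
    have h1 := hu.zero
    have h2 := hw.zero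
    have h3 : u + w = (u % 16 + w % 16) + 16 * (u / 16 + w / 16) := by omega
    have h4 : Commute (ev a (k + 1) (u / 16)) (a k ^ (w % 16)) :=
      (ev_comm a _ _ _ fun i _ => hc _ _ (by omega) le_rfl).pow_right _
    rw [h3, ev_cons a k _ _ (by omega), ih _ _ _ (by omega)
      (fun i j hi hj => hc i j (by omega) (by omega)) hu.tl hw.tl, ev_eq a k u, ev_eq a k w,
      pow_add, mul_assoc, mul_assoc, ← mul_assoc (ev a (k + 1) (u / 16)), h4.eq, mul_assoc]

end Pool.Agent.P.MP_3dfad8_al.F5
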