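import Pool.Agent.P.MP_3dfad8_al.F5.Cover

/-! The reduction to two generators. -/

namespace Pool.Agent.P.MP_3dfad8_al.F5

open Subgroup

variable {Γ : Type*} [Group Γ]

theorem cover_nil [Group.IsNilpotent Γ] {a : ℕ → Γ} (h : Pk a) : Commute (a 0 ^ 5) (a 1) := by
  obtain ⟨c, hc⟩ := Group.IsNilpotent.nilpotent Γ
  have key : ∀ n, ∀ k, 35 ≤ k → a k ∈ Subgroup.upperCentralSeries Γ (c - n) := by
    intro n
    induction n with
    | zero => intro k _; rw [Nat.sub_zero, hc]; exact mem_top _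
    | succ n ih =>
      intro k hk
      by_cases hn : c ≤ n
      · rw [show c - (n + 1) = c - n by omega]; exact ih k hk
      have h1 := (cover (h.map (QuotientGroup.mk' (Subgroup.upperCentralSeries Γ (c - (n + 1)))))
        fun k hk y => ?_).1 k hk
      · exact (QuotientGroup.eq_one_iff _).1 h1
      · obtain ⟨y, rfl⟩ := QuotientGroup.mk'_surjective _ y
        have h2 := ih k hk
        rw [show c - n = c - (n + 1) + 1 by omega, Subgroup.mem_upperCentralSeries_succ_iff] at h2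
        rw [← commutatorElement_eq_one_iff_commute, ← map_commutatorElement]
        exact (QuotientGroup.eq_one_iff _).2 (h2 y)
  refine (cover h fun k hk y => ?_).2
  have := key c k hk
  rw [Nat.sub_self, Subgroup.upperCentralSeries_zero, mem_bot] at this
  rw [this]
  exact Commute.one_left y

theorem tb_def : ∀ k < 35, 2 ≤ k → dk k < k ∧ dl k < k ∧ (3 ≤ k → 2 ≤ dk k) := by decide +kernel

theorem tb_prim : ∀ r < 34, 2 ≤ pj r ∧ pj r < 35 ∧ pi r < 35 ∧
    ent (tab (pi r)) (pj r) / 16 ^ 35 = 16 ^ r ∧ ent (tab (pi r)) (pj r) % 16 ^ 2 = 0 := by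
  decide +kernel

/-- the generators, defined as iterated commutators -/
noncomputable def gn (x y : Γ) (k : ℕ) : Γ :=
  if _h : 2 ≤ k ∧ k < 35 then
    (gn x y (dl k) * gn x y (dk k))⁻¹ * (gn x y (dk k) * gn x y (dl k))
  else if k = 0 then x else if k = 1 then y else 1
termination_by k
decreasing_by
  all_goals first
    | exact (tb_def k _h.2 _h.1).1
    | exact (tb_def k _h.2 _h.1).2.1

theorem gn_zero (x y : Γ) : gn x y 0 = x := by rw [gn]; simp
theorem gn_one (x y : Γ) : gn x y 1 = y := by rw [gn]; simp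
theorem gn_big (x y : Γ) (k : ℕ) (h : 35 ≤ k) : gn x y k = 1 := by
  rw [gn, dif_neg (by omega), if_neg (by omega), if_neg (by omega)]
theorem gn_def (x y : Γ) (k : ℕ) (h1 : 2 ≤ k) (h2 : k < 35) : gn x y k =
    (gn x y (dl k) * gn x y (dk k))⁻¹ * (gn x y (dk k) * gn x y (dl k)) := by
  rw [gn, dif_pos ⟨h1, h2⟩]

theorem gn_mem (x y : Γ) (A : Subgroup Γ) [hA : A.Normal] (h : (x * y)⁻¹ * (y * x) ∈ A) (k : ℕ) :
    2 ≤ k → gn x y k ∈ A := by
  induction k using Nat.strong_induction_on with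
  | _ k ih =>
    intro h1
    by_cases h2 : k < 35
    · rw [gn_def x y k h1 h2]
      by_cases h3 : k = 2
      · subst h3
        rwa [show dl 2 = 0 from rfl, show dk 2 = 1 from rfl, gn_zero, gn_one]
      · obtain ⟨h4, -, h5⟩ := tb_def k h2 h1
        have h6 := ih _ h4 (h5 (by omega))
        have h7 := A.mul_mem (A.inv_mem h6) (hA.conj_mem' _ h6 (gn x y (dl k)))
        rwa [mul_inv_rev, mul_assoc, ← mul_assoc (gn x y (dl k))⁻¹]
    · rw [gn_big x y k (by omega)]; exact A.one_mem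

/-- the generators together with the tails -/
noncomputable def gt (b : ℕ → Γ) (k : ℕ) : Γ :=
  if k < 35 then b k else if k < 69 then
    (b (pi (k - 35)) * ev b 0 (ent (tab (pi (k - 35))) (pj (k - 35))))⁻¹ *
      (b (pj (k - 35)) * b (pi (k - 35)))
  else if k = 69 then (ev b 0 Wt)⁻¹ * b 0 ^ 5 else 1

theorem gt_lt (b : ℕ → Γ) {k : ℕ} (h : k < 35) : gt b k = b k := if_pos h

theorem ev_gt (b : ℕ → Γ) (hb : ∀ k, 35 ≤ k → b k = 1) (w r : ℕ) (h : w / 16 ^ 35 = 16 ^ r) :
    ev (gt b) 0 w = ev b 0 w * gt b (35 + r) := by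
  have h1 : ∀ c : ℕ → Γ, ev c 35 (16 ^ r) = c (35 + r) := fun c => by
    rw [← ev_shift, ← pow_add, ev_pow]
  rw [ev_cut (gt b) 35, ev_cut b 35, h, h1, h1, hb _ (by omega), mul_one]
  congr 1
  refine ev_congr _ _ _ _ fun i hi => gt_lt b ?_
  by_contra h2
  rw [Nat.div_eq_of_lt (lt_of_lt_of_le (Nat.mod_lt _ (by positivity))
    (Nat.pow_le_pow_right (by norm_num) (by omega)))] at hi
  exact hi rfl

theorem ev_high (b : ℕ → Γ) (A : Subgroup Γ) (h : ∀ k, 2 ≤ k → b k ∈ A) (w : ℕ)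
    (hw : w % 16 ^ 2 = 0) : ev b 0 w ∈ A := by
  rw [ev_cut b 2, hw, ev_zero, one_mul]
  exact ev_mem b A _ _ fun i _ => h _ (by omega)

theorem two_gen [Group.IsNilpotent Γ] (A M : Subgroup Γ) [hA : A.Normal] (hAM : A ≤ M)
    (h5 : ∀ g ∈ A, g ^ 5 = 1) (hM : ∀ g, g ∉ M → g ^ 5 = 1) {x y : Γ} (hx : x ∈ M) (hy : y ∉ M)
    (h : (x * y)⁻¹ * (y * x) ∈ A) : Commute (x ^ 5) y := by
  have hb := gn_mem x y A h
  have hx5 : x ^ 5 ∈ A := by
    have h1 : Commute (x : Γ ⧸ A) (y : Γ ⧸ A) := QuotientGroup.eq.2 h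
    have h2 := h1.mul_pow 5
    rw [← QuotientGroup.mk_mul, ← QuotientGroup.mk_pow, ← QuotientGroup.mk_pow,
      ← QuotientGroup.mk_pow, hM y hy, hM (x * y) fun h3 => hy ((M.mul_mem_cancel_left hx).1 h3),
      QuotientGroup.mk_one, mul_one] at h2
    exact (QuotientGroup.eq_one_iff _).1 h2.symm
  have hg : ∀ k, 2 ≤ k → gt (gn x y) k ∈ A := fun k hk => by
    unfold gt
    split_ifs with h1 h2 h3
    · exact hb k hk
    · obtain ⟨h4, -, -, -, h6⟩ := tb_prim (k - 35) (by omega)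
      have h7 := A.mul_mem (A.inv_mem (ev_high _ A hb _ h6))
        (hA.conj_mem' _ (hb _ h4) (gn x y (pi (k - 35))))
      rwa [mul_inv_rev, mul_assoc, ← mul_assoc (gn x y (pi (k - 35)))⁻¹]
    · rw [gn_zero]
      exact A.mul_mem (A.inv_mem (ev_high _ A hb _ (by decide +kernel))) hx5
    · exact A.one_mem
  have g0 : gt (gn x y) 0 = x := (gt_lt _ (by omega)).trans (gn_zero x y)
  have g1 : gt (gn x y) 1 = y := (gt_lt _ (by omega)).trans (gn_one x y)
  have P : Pk (gt (gn x y)) := by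
    refine ⟨?_, fun k hk => ?_, fun i h1 h2 => ?_, fun r hr => ?_, fun w hw => ?_⟩
    · rw [ev_gt _ (gn_big x y) Wt 34 (by decide +kernel), gt_lt _ (by omega)]
      simp [gt]
    · rw [gt, if_neg (by omega), if_neg (by omega), if_neg (by omega)]
    · obtain ⟨h3, h4, -⟩ := tb_def i h2 h1
      rw [gt_lt _ (by omega), gt_lt _ (by omega), gt_lt _ h2, gn_def x y i h1 h2,
        mul_inv_cancel_left]
    · obtain ⟨-, h1, h2, h3, -⟩ := tb_prim r hr
      rw [ev_gt _ (gn_big x y) _ r h3, gt_lt _ h1, gt_lt _ h2, gt, if_neg (by omega),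
        if_pos (by omega), Nat.add_sub_cancel_left, ← mul_assoc, mul_inv_cancel_left]
    · cases h1 : Nat.beq (Nat.mod w 256) 0
      · rw [al, h1] at hw
        obtain ⟨h2, h3⟩ := bsel_eq hw
        have h4 : 16 ≤ w % 256 := Nat.le_of_ble_eq_true h2
        have h6 : w % 256 ≤ 79 := Nat.le_of_ble_eq_true h3
        refine hM _ fun h7 => hy ?_
        rw [ev_eq, ev_eq, g0, g1, M.mul_mem_cancel_left (M.pow_mem hx _), M.mul_mem_cancel_right
          (hAM (ev_mem _ A _ _ fun i _ => hg _ (by omega)))] at h7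
        have h8 := M.pow_mem (M.pow_mem h7 (w / 16 % 16)) (w / 16 % 16 * (w / 16 % 16))
        rw [← pow_mul, ← pow_mul, pow_eq_pow_mod _ (hM y hy)] at h8
        have h9 : w / 16 % 16 = 1 ∨ w / 16 % 16 = 2 ∨ w / 16 % 16 = 3 ∨ w / 16 % 16 = 4 := by omega
        rcases h9 with h9 | h9 | h9 | h9 <;> simpa [h9] using h8
      · exact h5 _ (ev_high _ A hg w (Nat.eq_of_beq_eq_true h1))
  have := cover_nil P
  rwa [g0, g1] at this

theorem exp_five [Group.IsNilpotent Γ] (M : Subgroup Γ) [M.Normal] (hT : M ≠ ⊤)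
    (hM : ∀ g, g ∉ M → g ^ 5 = 1) (hz : ∀ x : Γ, (∀ y, Commute (x ^ 5) y) → x ^ 5 = 1) (g : Γ) :
    g ^ 5 = 1 := by
  obtain ⟨c, hc⟩ := Group.IsNilpotent.nilpotent Γ
  obtain ⟨t, ht⟩ : ∃ t, t ∉ M := by
    by_contra h
    push Not at h
    exact hT (eq_top_iff.2 fun t _ => h t)
  have key : ∀ n, ∀ x ∈ M ⊓ Subgroup.upperCentralSeries Γ n, x ^ 5 = 1 := by
    intro n
    induction n with
    | zero =>
      intro x hx
      have := hx.2
      rw [Subgroup.upperCentralSeries_zero] at this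
      rw [mem_bot.1 this, one_pow]
    | succ n ih =>
      intro x hx
      have h1 : ∀ y, y ∉ M → Commute (x ^ 5) y := fun y hy => by
        refine two_gen (M ⊓ Subgroup.upperCentralSeries Γ n) M inf_le_left ih hM hx.1 hy ⟨?_, ?_⟩
        · have h2 := M.mul_mem (Normal.conj_mem' inferInstance _ (M.inv_mem hx.1) y) hx.1
          rwa [mul_inv_rev, ← mul_assoc]
        · have h2 := inv_mem (Subgroup.mem_upperCentralSeries_succ_iff.1 (inv_mem hx.2) y⁻¹)
          rw [commutatorElement_inv, commutatorElement_def, inv_inv, inv_inv] at h2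
          rwa [mul_inv_rev, ← mul_assoc]
      refine hz x fun y => ?_
      by_cases hy : y ∈ M
      · have h2 := (h1 (y * t) fun h => ht ((M.mul_mem_cancel_left hy).1 h)).mul_right
          (h1 t ht).inv_right
        rwa [mul_inv_cancel_right] at h2
      · exact h1 y hy
  by_cases hg : g ∈ M
  · exact key c g ⟨hg, by rw [hc]; exact mem_top g⟩
  · exact hM g hg

end Pool.Agent.P.MP_3dfad8_al.F5
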