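import Pool.Agent.P.MP_3dfad8_al.F5.Ev

/-! Soundness of the collector. -/

namespace Pool.Agent.P.MP_3dfad8_al.F5

variable {Γ : Type*} [Group Γ]

def pr (a : ℕ → Γ) (l : List ℕ) : Γ := (l.map (ev a 0)).prod

@[simp] theorem pr_nil (a : ℕ → Γ) : pr a [] = 1 := rfl
@[simp] theorem pr_cons (a : ℕ → Γ) (w : ℕ) (l : List ℕ) : pr a (w :: l) = ev a 0 w * pr a l := by
  simp [pr]

theorem pr_rep (a : ℕ → Γ) (e x : ℕ) (l : List ℕ) : pr a (rep e x l) = ev a 0 x ^ e * pr a l := by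
  induction e with
  | zero => simp [rep]
  | succ e ih =>
    change pr a (x :: rep e x l) = _
    rw [pr_cons, ih, pow_succ', mul_assoc]

theorem sel_eq {b : Bool} {x y r : ℕ} (h : sel b x y = r) :
    (b = true ∧ x = r) ∨ (b = false ∧ y = r) := by
  cases b
  · exact Or.inr ⟨rfl, h⟩
  · exact Or.inl ⟨rfl, h⟩

theorem sel_zero {b : Bool} {x r : ℕ} (h : sel b x 0 = r + 1) : b = true ∧ x = r + 1 := by
  rcases sel_eq h with h | h
  · exact h
  · omega

theorem bsel_eq {b x : Bool} (h : bsel b x = true) : b = true ∧ x = true := by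
  cases b
  · exact absurd h (by simp [bsel])
  · exact ⟨rfl, h⟩

theorem frc_eq (g : ℕ) (f : ℕ → ℕ) : frc g f = f g := by cases g <;> rfl

theorem comm_of_mask (a : ℕ → Γ) (g row k s m : ℕ) (hc : ∀ k, 35 ≤ k → ∀ y, Commute (a k) y)
    (hR : ∀ i, k + i < 35 → s / 16 ^ i % 16 ≠ 0 →
      a (k + i) * a g = a g * ev a 0 (ent row (k + i)))
    (hm : ∀ i, k + i < 35 → m / 16 ^ i % 16 = 15 ∨ ent row (k + i) = 16 ^ (k + i))
    (h : s &&& m = 0) : Commute (ev a k s) (a g) := by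
  refine ev_comm a _ _ _ fun i hi => ?_
  by_cases h35 : k + i < 35
  · rcases hm i h35 with h1 | h1
    · have h2 := dg_and s m i
      rw [h, h1, show (15 : ℕ) = 2 ^ 4 - 1 from rfl, Nat.and_two_pow_sub_one_eq_mod] at h2
      simp only [Nat.zero_div, Nat.zero_mod] at h2
      omega
    · have := hR i h35 hi
      rwa [h1, ev_pow] at this
  · exact hc _ (by omega) _

theorem cj_ok (a : ℕ → Γ) (g row : ℕ) (rest : List ℕ) (hc : ∀ k, 35 ≤ k → ∀ y, Commute (a k) y)
    (fuel : ℕ) : ∀ k s m : ℕ, k + fuel = 35 →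
    (∀ i, k + i < 35 → s / 16 ^ i % 16 ≠ 0 → a (k + i) * a g = a g * ev a 0 (ent row (k + i))) →
    (∀ i, k + i < 35 → m / 16 ^ i % 16 = 15 ∨ ent row (k + i) = 16 ^ (k + i)) →
    ev a k s * a g * pr a rest = a g * pr a (cj row rest fuel k s m) := by
  induction fuel with
  | zero =>
    intro k s m hk _ _
    change _ = a g * pr a (16 ^ k * s :: rest)
    rw [pr_cons, ev_shift, (ev_comm a (a g) s k fun i _ => hc _ (by omega) _).eq, mul_assoc]
  | succ n ih =>
    intro k s m hk hR hm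
    change _ = a g * pr a (lsel (Nat.beq (s &&& m) 0) (16 ^ k * s :: rest)
      (rep (s % 16) (ent row k) (cj row rest n (k + 1) (s / 16) (m / 16))))
    cases hb : Nat.beq (s &&& m) 0
    · change _ = a g * pr a (rep (s % 16) (ent row k) (cj row rest n (k + 1) (s / 16) (m / 16)))
      have h1 : a k ^ (s % 16) * a g = a g * ev a 0 (ent row k) ^ (s % 16) := by
        by_cases h0 : s % 16 = 0
        · simp [h0]
        · have := hR 0 (by omega) (by simpa using h0)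
          exact (SemiconjBy.pow_right (a := a g) (x := ev a 0 (ent row k)) (y := a k)
            this.symm _).eq.symm
      rw [pr_rep, ← mul_assoc, ← h1, mul_assoc (a k ^ _), ← ih (k + 1) _ _ (by omega), ev_eq a k s]
      · simp only [mul_assoc]
      · intro i hi h
        rw [dg_succ] at h
        have := hR (i + 1) (by omega) h
        rwa [show k + (i + 1) = k + 1 + i by omega] at this
      · intro i hi
        have := hm (i + 1) (by omega)
        rwa [← dg_succ, show k + (i + 1) = k + 1 + i by omega] at this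
    · change _ = a g * pr a (16 ^ k * s :: rest)
      rw [pr_cons, ev_shift, (comm_of_mask a g row k s m hc hR hm (Nat.eq_of_beq_eq_true hb)).eq,
        mul_assoc]

structure Good (a : ℕ → Γ) (tab : ℕ → ℕ) (W Z : ℕ) (fe : ℕ → ℕ) : Prop where
  hR : ∀ g k, g < Z → g + 1 + fe g ≤ k → k < 35 → a k * a g = a g * ev a 0 (ent (tab g) k)
  hZ : ∀ i j, Z ≤ i → Z ≤ j → Commute (a i) (a j)
  hc : ∀ k, 35 ≤ k → ∀ y, Commute (a k) y
  h5 : ∀ g, 1 ≤ g → a g ^ 5 = 1
  h0 : a 0 ^ 5 = ev a 0 W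
  hm : ∀ g < 35, ∀ i < 35, g + 1 + i < 35 →
    ent (tab g) 0 / 16 ^ i % 16 = 15 ∨ ent (tab g) (g + 1 + i) = 16 ^ (g + 1 + i)
  hZ35 : Z ≤ 35

/-- a continuation is sound -/
def Snd (a : ℕ → Γ) (ih : ℕ → List ℕ → ℕ) : Prop :=
  ∀ u l r, ih u l = r + 1 → ev a 0 r = ev a 0 u * pr a l

variable {a : ℕ → Γ} {tab : ℕ → ℕ} {W Z : ℕ} {fe : ℕ → ℕ} {ih : ℕ → List ℕ → ℕ}

theorem sZ_ok (H : Good a tab W Z fe) (hi : Snd a ih) {u w g r : ℕ} {rest : List ℕ}
    (hg : Z ≤ g) (hw : w % 16 ^ g = 0) (h : sZ ih u w rest (u + w) = r + 1) :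
    ev a 0 r = ev a 0 u * pr a (w :: rest) := by
  unfold sZ sZ2 sZ3 at h
  generalize Nat.shiftRight (Nat.add (u + w) T3) 3 = y at h
  generalize Nat.sub (u + w) (Nat.mul 5 (Nat.land y O1)) = z at h
  obtain ⟨h1, h⟩ := sel_zero h
  obtain ⟨h2, h⟩ := sel_zero h
  have h3 : u ||| w ||| z ||| K7 = K7 := Nat.eq_of_beq_eq_true h1
  have h4 : z + 5 * (y &&& O1) = u + w := Nat.eq_of_beq_eq_true h2
  have h5 : Dg 7 (u ||| w ||| z ||| K7) := h3.symm ▸ dg_K7
  have hu : Dg 7 u := h5.or_left.or_left.or_left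
  have hw7 : Dg 7 w := h5.or_left.or_left.or_right
  have hz : Dg 7 z := h5.or_left.or_right
  have h6 : (y &&& O1) % 16 = 0 := by
    have := dg_and y O1 0
    rw [pow_zero, Nat.div_one, Nat.div_one, Nat.div_one, show O1 % 16 = 0 by decide +kernel] at this
    simpa using this
  have h7 : u + w = u % 16 ^ g + 16 ^ g * (u / 16 ^ g + w / 16 ^ g) := by
    have e1 := Nat.mod_add_div u (16 ^ g)
    have e2 := Nat.mod_add_div w (16 ^ g)
    rw [mul_add]; omega
  rw [hi _ _ _ h, ← ev_five a H.h5 _ 0 z _ (Nat.lt_succ_self _) hz (dg_O1.and y) fun _ => h6, h4,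
    pr_cons, ← mul_assoc, h7, ev_split a g 0 _ _ (Nat.mod_lt _ (by positivity)), zero_add,
    ev_add a _ g _ _ (Nat.lt_succ_self _) (fun i j h1 h2 => H.hZ i j (by omega) (by omega))
      (hu.div g) (hw7.div g), ev_cut a g u, ev_cut a g w, hw, ev_zero, one_mul]
  simp only [mul_assoc]

theorem ev_mid (a : ℕ → Γ) (g x d s : ℕ) (hx : x < 16 ^ g) (hd : d < 16) :
    ev a 0 (x + 16 ^ g * (d + 16 * s)) = ev a 0 x * a g ^ d * ev a (g + 1) s := by
  rw [ev_split a g 0 _ _ hx, zero_add, ev_cons a g _ _ hd, mul_assoc]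

theorem sN_ok (H : Good a tab W Z fe) (hi : Snd a ih) {x d s e t g r : ℕ} {rest : List ℕ}
    (hg : g < Z) (hx : x < 16 ^ g) (hd : d < 16) (he : e < 16) (he1 : 1 ≤ e)
    (h : sN W fe ih (x + 16 ^ g * (d + 16 * s)) (16 ^ g * (e + 16 * t)) rest g (16 ^ g) d s
      (tab g) = r + 1) :
    ev a 0 r = ev a 0 (x + 16 ^ g * (d + 16 * s)) * pr a (16 ^ g * (e + 16 * t) :: rest) := by
  have hZ := H.hZ35
  have hp : 0 < 16 ^ g := by positivity
  obtain ⟨h1, h⟩ := sel_zero h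
  have h2 : s % 16 ^ fe g = 0 := Nat.eq_of_beq_eq_true h1
  have hR : ∀ i, g + 1 + i < 35 → s / 16 ^ i % 16 ≠ 0 →
      a (g + 1 + i) * a g = a g * ev a 0 (ent (tab g) (g + 1 + i)) := fun i h3 h4 => by
    refine H.hR g _ hg ?_ h3
    by_contra h5
    obtain ⟨c, hc⟩ := Nat.dvd_of_mod_eq_zero h2
    obtain ⟨j, hj⟩ : ∃ j, fe g = i + (j + 1) := ⟨fe g - i - 1, by omega⟩
    rw [hc, hj, pow_add, mul_assoc, Nat.mul_div_cancel_left _ (by positivity), pow_succ,
      mul_right_comm] at h4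
    exact h4 (Nat.mul_mod_left _ _)
  have hm : ∀ i, g + 1 + i < 35 → ent (tab g) 0 / 16 ^ i % 16 = 15 ∨
      ent (tab g) (g + 1 + i) = 16 ^ (g + 1 + i) := fun i h3 => H.hm g (by omega) i (by omega) h3
  rw [ev_mid a g x d s hx hd, pr_cons, ev_shift, ev_cons a g e t he]
  rcases sel_eq h with ⟨h3, h⟩ | ⟨-, h⟩
  · obtain ⟨h3, h4⟩ := bsel_eq h3
    have h5 := comm_of_mask a g (tab g) (g + 1) s _ H.hc hR hm (Nat.eq_of_beq_eq_true h3)
    have h6 : 1 ≤ g := Nat.le_of_ble_eq_true h4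
    have e1 : 16 ^ g * (e + 16 * t) / 16 ^ g % 16 = e := by
      rw [Nat.mul_div_cancel_left _ hp]; omega
    change ih (x + 16 ^ g * (d + 16 * s) - 16 ^ g * d +
      16 ^ g * ((d + 16 ^ g * (e + 16 * t) / 16 ^ g % 16) % 5))
      ((16 ^ g * (e + 16 * t) - 16 ^ g * (16 ^ g * (e + 16 * t) / 16 ^ g % 16)) :: rest) = _ at h
    rw [e1, show x + 16 ^ g * (d + 16 * s) - 16 ^ g * d + 16 ^ g * ((d + e) % 5) =
        x + 16 ^ g * ((d + e) % 5 + 16 * s) by rw [mul_add, mul_add]; omega,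
      show 16 ^ g * (e + 16 * t) - 16 ^ g * e = 16 ^ (g + 1) * t by
        rw [mul_add, pow_succ, mul_assoc]; omega] at h
    rw [hi _ _ _ h, ev_mid a g x _ s hx (by omega), pr_cons, ev_shift,
      ← pow_eq_pow_mod _ (H.h5 g h6), pow_add]
    simp only [mul_assoc]
    rw [← mul_assoc (a g ^ e), ← (h5.pow_right e).eq, mul_assoc]
  · have e1 : 16 ^ g * (e + 16 * t) - 16 ^ g = 16 ^ g * (e - 1 + 16 * t) := by
      obtain ⟨e', rfl⟩ : ∃ e', e = e' + 1 := ⟨e - 1, by omega⟩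
      rw [show e' + 1 + 16 * t = e' + 1 - 1 + 16 * t + 1 by omega, mul_add _ _ 1]; omega
    have h5 := cj_ok a g (tab g) ((16 ^ g * (e + 16 * t) - 16 ^ g) :: rest) H.hc (34 - g) (g + 1)
      s _ (by omega) hR hm
    have e2 : (x + 16 ^ g * (d + 16 * s)) % 16 ^ g = x := by
      rw [Nat.add_mul_mod_self_left, Nat.mod_eq_of_lt hx]
    have e3 : a g ^ e = a g * a g ^ (e - 1) := by rw [← pow_succ']; congr 1; omega
    unfold sU at h
    change sel _ (ih ((x + 16 ^ g * (d + 16 * s)) % 16 ^ g + 16 ^ g * (d - 4))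
      (_ :: cj (tab g) ((16 ^ g * (e + 16 * t) - 16 ^ g) :: rest) (34 - g) (g + 1) s _))
      (ih ((x + 16 ^ g * (d + 16 * s)) % 16 ^ g + 16 ^ g * (d + 1))
      (cj (tab g) ((16 ^ g * (e + 16 * t) - 16 ^ g) :: rest) (34 - g) (g + 1) s _)) = _ at h
    rw [e2] at h
    generalize cj (tab g) ((16 ^ g * (e + 16 * t) - 16 ^ g) :: rest) (34 - g) (g + 1) s
      (ent (tab g) 0) = L at h h5
    rw [e1, pr_cons, ev_shift, ev_cons a g _ t (by omega)] at h5
    have h6 : ev a 0 x * a g ^ d * ev a (g + 1) s * (a g ^ e * ev a (g + 1) t * pr a rest) =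
        ev a 0 x * a g ^ (d + 1) * pr a L := by
      rw [e3, pow_succ, mul_assoc (ev a 0 x) (a g ^ d * a g), mul_assoc (a g ^ d), ← h5]
      simp only [mul_assoc]
    rw [h6]
    rcases sel_eq h with ⟨h3, h⟩ | ⟨h3, h⟩
    · have h4 : 4 ≤ d := Nat.le_of_ble_eq_true h3
      have h7 : ev a 0 (sel (Nat.beq g 0) W 0) = a g ^ 5 := by
        cases g with
        | zero => exact H.h0.symm
        | succ g => exact (ev_zero a 0).trans (H.h5 _ (by omega)).symm
      rw [hi _ _ _ h, ev_split a g 0 _ _ hx, zero_add, ev_dig a g _ (by omega), pr_cons, h7,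
        show d + 1 = d - 4 + 5 by omega, pow_add]
      simp only [mul_assoc]
    · have h4 : d < 4 := by
        by_contra h4
        rw [Nat.ble_eq_true_of_le (by omega)] at h3
        cases h3
      rw [hi _ _ _ h, ev_split a g 0 _ _ hx, zero_add, ev_dig a g _ (by omega)]

theorem st_ok (H : Good a tab W Z fe) (hi : Snd a ih) {u w r : ℕ} {rest : List ℕ}
    (h : st tab W Z fe ih u w rest = r + 1) : ev a 0 r = ev a 0 u * pr a (w :: rest) := by
  rcases sel_eq h with ⟨h1, h⟩ | ⟨-, h⟩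
  · rw [hi _ _ _ h, pr_cons, Nat.eq_of_beq_eq_true h1, ev_zero, one_mul]
  rw [frc_eq] at h
  generalize low w = g at h
  have hp : 0 < 16 ^ g := by positivity
  obtain ⟨h1, h⟩ := sel_zero h
  obtain ⟨h1, h2⟩ := bsel_eq h1
  have hw : w % 16 ^ g = 0 := Nat.eq_of_beq_eq_true h1
  have he : 1 ≤ w / 16 ^ g % 16 := Nat.le_of_ble_eq_true h2
  rcases sel_eq h with ⟨h3, h⟩ | ⟨-, h⟩
  · have h4 : u / 16 ^ g = 0 := Nat.eq_of_beq_eq_true h3
    have h5 : u < 16 ^ g := by rwa [Nat.div_eq_zero_iff_lt hp] at h4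
    have h6 : w = 16 ^ g * (w / 16 ^ g) := by
      have := Nat.mod_add_div w (16 ^ g)
      omega
    change ih (u + w) rest = _ at h
    rw [hi _ _ _ h, pr_cons, ← mul_assoc, h6, ev_split a g 0 _ _ h5, zero_add, ev_shift]
  rcases sel_eq h with ⟨h3, h⟩ | ⟨h3, h⟩
  · exact sZ_ok H hi (Nat.le_of_ble_eq_true h3) hw h
  · have h4 : g < Z := by
      by_contra h4
      rw [Nat.ble_eq_true_of_le (by omega)] at h3
      cases h3
    have e1 : u = u % 16 ^ g + 16 ^ g * (u / 16 ^ g % 16 + 16 * (u / 16 ^ g / 16)) := by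
      rw [Nat.mod_add_div, Nat.mod_add_div]
    have e2 : w = 16 ^ g * (w / 16 ^ g % 16 + 16 * (w / 16 ^ g / 16)) := by
      rw [Nat.mod_add_div]
      have := Nat.mod_add_div w (16 ^ g)
      omega
    change sN W fe ih u w rest g (16 ^ g) (u / 16 ^ g % 16) (u / 16 ^ g / 16) (tab g) = _ at h
    have := sN_ok (x := u % 16 ^ g) (d := u / 16 ^ g % 16) (s := u / 16 ^ g / 16)
      (e := w / 16 ^ g % 16) (t := w / 16 ^ g / 16) (r := r) (rest := rest) H hi h4
      (Nat.mod_lt _ hp) (Nat.mod_lt _ (by norm_num)) (Nat.mod_lt _ (by norm_num)) he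
      (by rw [← e1, ← e2]; exact h)
    rwa [← e1, ← e2] at this

theorem col_ok (H : Good a tab W Z fe) (fuel : ℕ) : Snd a (col tab W Z fe fuel) := by
  induction fuel with
  | zero => intro u l r h; exact absurd h (by simp [col])
  | succ n ih =>
    intro u l r h
    cases l with
    | nil =>
      have : u + 1 = r + 1 := h
      rw [pr_nil, mul_one, show r = u by omega]
    | cons w rest => exact st_ok H ih h

end Pool.Agent.P.MP_3dfad8_al.F5
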